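import Pool.Agent.helper52.EU.SpecK
import Pool.Agent.helper36.YB.Spec

/-!
# Row yb:GHX (MP_ad8ced_nt)
-/

set_option autoImplicit false

open Finset
open Pool.Agent.FI Pool.Agent.HK Pool.Agent.BP Pool.Agent.YB
open Pool.Agent.CH (nit rgh)

noncomputable section

namespace Pool.Agent.EU

theorem GHX_odd (z : ℤ × ℤ) (hz : z.1 % 2 = 1) : Nat.Coprime (nn z) 2 := by
  have h1 : nn z = (N8 z).natAbs := rfl
  have h2 : N8 z = z.1 ^ 2 - 8 * z.2 ^ 2 := rfl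
  have h3 : N8 z % 2 = 1 := by
    rw [h2]
    obtain ⟨k, hk⟩ : ∃ k, z.1 = 2 * k + 1 := ⟨z.1 / 2, by omega⟩
    rw [hk]
    have h4 : (2 * k + 1) ^ 2 - 8 * z.2 ^ 2 = 2 * (2 * k ^ 2 + 2 * k - 4 * z.2 ^ 2) + 1 := by ring
    rw [h4]
    omega
  rw [Nat.coprime_comm, Nat.coprime_two_left, h1, Int.natAbs_odd, Int.odd_iff]
  exact h3

theorem GHX_two (q : ℕ) (Ψ : ℤ × ℤ → ℂ) (h : UX q Ψ) : UX (2 * q) Ψ := by
  obtain ⟨h1, h2, h3, h4⟩ := h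
  refine ⟨h1, h2, fun z hz hc => h3 z hz fun hc' => hc (Nat.Coprime.mul_right (GHX_odd z hz) hc'),
    fun z hz hc => h4 z hz (Nat.Coprime.coprime_mul_left_right hc)⟩

theorem GHX (hTRX : TRX_stmt) (hMUX : MUX_stmt) : GHX_stmt := by
  intro q Ψ hΨ
  have h2 := GHX_two q Ψ hΨ
  obtain ⟨k₁, k₂, g₁, g₂, h₁, h₂', -, -, c1, c2, -, -, -, -, hr⟩ := hTRX (2 * q) Ψ (dvd_mul_right 2 q) h2
  exact ⟨g₁, g₂, c1, c2, fun n hn => ⟨(hr n hn).2.1,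
    hMUX (2 * q) Ψ (dvd_mul_right 2 q) h2 g₁ g₂ c1 c2 (fun m hm => (hr m hm).2.1) n hn⟩⟩

end Pool.Agent.EU
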